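import Pool.Agent.Work.MP_45d062_pr.Step

/-!
# Steps and chains of steps
-/

namespace Pool.Agent.Work.MP_45d062_pr

open MeasureTheory Set

/-- Steps of radius `r` are possible at all points at distance at most `s` from `u`: along a
near-geodesic of `N` through such a point, the `N'`-distance from the starting point grows at most
by `κ` times the `N`-length, until the path leaves the disc of radius `r`. -/
def StepOK (N N' : ℂ → ℂ → ℝ) (κ a e : ℝ) (u : ℂ) (s r : ℝ) : Prop :=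
  ∀ T P ℓ, Geo N e T P ℓ → ∀ σ ∈ Icc 0 T, ‖P σ - u‖ ≤ s →
    r < ‖P 0 - P σ‖ → r ≤ ‖P T - P σ‖ →
    ∃ τ ∈ Icc σ T, (∀ t ∈ Icc σ τ, ‖P t - P σ‖ ≤ r) ∧ a ≤ ℓ τ - ℓ σ ∧
      N' (P 0) (P τ) ≤ N' (P 0) (P σ) + κ * (ℓ τ - ℓ σ)

theorem Geo.mono_e {N : ℂ → ℂ → ℝ} {e e' T : ℝ} {P : ℝ → ℂ} {ℓ : ℝ → ℝ} (h : Geo N e T P ℓ)
    (he : e ≤ e') : Geo N e' T P ℓ := ⟨h.toCrv, le_trans h.near (by linarith)⟩

theorem StepOK.mono {N N' : ℂ → ℂ → ℝ} {κ κ' a a' e e' : ℝ} {u u' : ℂ} {s s' r : ℝ}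
    (h : StepOK N N' κ a e u s r) (hκ : κ ≤ κ') (ha : a' ≤ a) (ha0 : 0 ≤ a) (he : e' ≤ e)
    (hs : ‖u' - u‖ + s' ≤ s) : StepOK N N' κ' a' e' u' s' r := by
  intro T P ℓ hP σ hσ h1 h2 h3
  obtain ⟨τ, hτ, h4, h5, h6⟩ := h T P ℓ (hP.mono_e he) σ hσ (by
    have : ‖P σ - u‖ ≤ ‖P σ - u'‖ + ‖u' - u‖ := by
      have := norm_add_le (P σ - u') (u' - u); simpa using this
    linarith) h2 h3
  refine ⟨τ, hτ, h4, by linarith, le_trans h6 ?_⟩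
  have := mul_le_mul_of_nonneg_right hκ (by linarith : 0 ≤ ℓ τ - ℓ σ)
  linarith

/-- Chains of steps. -/
theorem chain {N N' : ℂ → ℂ → ℝ} {T : ℝ} {P : ℝ → ℂ} {ℓ Φ : ℝ → ℝ} (hN : PMet N)
    (hP : Crv N T P ℓ) {s0 a ρ : ℝ} (hs0 : s0 ∈ Icc 0 T) (ha : 0 < a)
    (hstep : ∀ s ∈ Icc s0 T, ρ ≤ ‖P s - P T‖ → ∃ τ ∈ Icc s T, ℓ s + a ≤ ℓ τ ∧
      N' (P 0) (P τ) ≤ N' (P 0) (P s) + (Φ τ - Φ s)) :
    ∃ s1 ∈ Icc s0 T, ‖P s1 - P T‖ < ρ ∧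
      N' (P 0) (P s1) ≤ N' (P 0) (P s0) + (Φ s1 - Φ s0) := by
  have key : ∀ n : ℕ, ∀ s ∈ Icc s0 T,
      N' (P 0) (P s) ≤ N' (P 0) (P s0) + (Φ s - Φ s0) → ℓ T - ℓ s ≤ n * a →
      ∃ s1 ∈ Icc s0 T, ‖P s1 - P T‖ < ρ ∧
        N' (P 0) (P s1) ≤ N' (P 0) (P s0) + (Φ s1 - Φ s0) := by
    intro n
    induction n with
    | zero =>
      intro s hs h1 h2
      by_cases h : ‖P s - P T‖ < ρ
      · exact ⟨s, hs, h, h1⟩
      · obtain ⟨τ, hτ, h3, _⟩ := hstep s hs (not_lt.1 h)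
        have := hP.mono_l hN (le_trans hs0.1 (le_trans hs.1 hτ.1)) hτ.2 le_rfl
        simp only [Nat.cast_zero, zero_mul] at h2
        linarith
    | succ n ih =>
      intro s hs h1 h2
      by_cases h : ‖P s - P T‖ < ρ
      · exact ⟨s, hs, h, h1⟩
      · obtain ⟨τ, hτ, h3, h4⟩ := hstep s hs (not_lt.1 h)
        refine ih τ ⟨le_trans hs.1 hτ.1, hτ.2⟩ (by linarith) ?_
        push_cast at h2
        linarith
  obtain ⟨n, hn⟩ := exists_nat_gt ((ℓ T - ℓ s0) / a)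
  refine key n s0 ⟨le_rfl, hs0.2⟩ (by simp) ?_
  exact ((div_lt_iff₀ ha).1 hn).le

end Pool.Agent.Work.MP_45d062_pr
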