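import Pool.Agent.Work.MP_45d062_pr.Path

/-!
# The distance of a density, abstract metrics, curves and near-geodesics
-/

namespace Pool.Agent.Work.MP_45d062_pr

open MeasureTheory Set

/-- The distance: infimum of the lengths of the paths. -/
noncomputable def dst (φ : ℂ → ℝ) (x y : ℂ) : ℝ := sInf {l | PL φ univ x y l}

/-- A pseudometric such that the distance to a sphere around `z` is at most the distance to `z`. -/
structure PMet (N : ℂ → ℂ → ℝ) : Prop where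
  nonneg : ∀ x y, 0 ≤ N x y
  refl : ∀ x, N x x = 0
  symm : ∀ x y, N x y = N y x
  tri : ∀ x y z, N x z ≤ N x y + N y z
  cross : ∀ x z R e, 0 ≤ R → R ≤ ‖x - z‖ → 0 < e → ∃ u, ‖u - z‖ = R ∧ N x u ≤ N x z + e

/-- A continuous curve with a length function. -/
structure Crv (N : ℂ → ℂ → ℝ) (T : ℝ) (P : ℝ → ℂ) (ℓ : ℝ → ℝ) : Prop where
  T0 : 0 ≤ T
  cP : ContinuousOn P (Icc 0 T)
  cl : ContinuousOn ℓ (Icc 0 T)
  l0 : ℓ 0 = 0
  le : ∀ a b, 0 ≤ a → a ≤ b → b ≤ T → N (P a) (P b) ≤ ℓ b - ℓ a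

/-- A near-geodesic with slack `e`. -/
structure Geo (N : ℂ → ℂ → ℝ) (e : ℝ) (T : ℝ) (P : ℝ → ℂ) (ℓ : ℝ → ℝ) : Prop
    extends Crv N T P ℓ where
  near : ℓ T ≤ N (P 0) (P T) + e

variable {φ φ' : ℂ → ℝ} {x y z : ℂ} {s : ℝ}

theorem Jn_univ (hφ : Continuous φ) (x y : ℂ) : ∃ s, Jn φ univ x y s := by
  obtain ⟨M, hM⟩ := (isCompact_Icc (a := (0 : ℝ)) (b := 1)).bddAbove_image
    (f := fun t : ℝ => φ (x + t * (y - x))) (by fun_prop)
  refine ⟨Real.exp M * ‖y - x‖ + 1, Jn.segment (M := M) hφ (fun _ _ => mem_univ _)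
    (fun t ht => hM ⟨t, ht, rfl⟩) (by linarith)⟩

theorem PL_bddBelow (x y : ℂ) : BddBelow {l | PL φ univ x y l} := ⟨0, fun _ h => h.nonneg⟩

theorem PL_nonempty (hφ : Continuous φ) (x y : ℂ) : {l | PL φ univ x y l}.Nonempty := by
  obtain ⟨s, l, _, h⟩ := Jn_univ hφ x y
  exact ⟨l, h⟩

theorem dst_lt_iff (hφ : Continuous φ) : dst φ x y < s ↔ Jn φ univ x y s := by
  unfold dst Jn
  rw [csInf_lt_iff (PL_bddBelow x y) (PL_nonempty hφ x y)]
  constructor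
  · rintro ⟨l, h1, h2⟩; exact ⟨l, h2, h1⟩
  · rintro ⟨l, h1, h2⟩; exact ⟨l, h2, h1⟩

theorem dst_le_of_PL {l : ℝ} (h : PL φ univ x y l) : dst φ x y ≤ l := csInf_le (PL_bddBelow x y) h

theorem dst_nonneg (φ : ℂ → ℝ) (x y : ℂ) : 0 ≤ dst φ x y :=
  Real.sInf_nonneg fun _ h => h.nonneg

theorem dst_self (φ : ℂ → ℝ) (x : ℂ) : dst φ x x = 0 :=
  le_antisymm (dst_le_of_PL (PL.nil (mem_univ x))) (dst_nonneg φ x x)

theorem dst_symm (φ : ℂ → ℝ) (x y : ℂ) : dst φ x y = dst φ y x := by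
  unfold dst
  congr 1
  ext l
  exact ⟨fun h => PL.symm h, fun h => PL.symm h⟩

theorem dst_tri (hφ : Continuous φ) (x y z : ℂ) : dst φ x z ≤ dst φ x y + dst φ y z := by
  refine le_of_forall_pos_le_add fun e he => ?_
  have h1 : Jn φ univ x y (dst φ x y + e / 2) := (dst_lt_iff hφ).1 (by linarith)
  have h2 : Jn φ univ y z (dst φ y z + e / 2) := (dst_lt_iff hφ).1 (by linarith)
  have := (dst_lt_iff hφ).2 (h1.trans h2)
  linarith

theorem dst_curve (hφ : Continuous φ) (h : dst φ x y < s) :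
    ∃ T P ℓ, Cv φ univ T P ℓ ∧ P 0 = x ∧ P T = y ∧ ℓ T < s := by
  obtain ⟨l, hl, h⟩ := (dst_lt_iff hφ).1 h
  obtain ⟨T, P, ℓ, hC, h0, h1, h2⟩ := h.curve hφ
  exact ⟨T, P, ℓ, hC, h0, h1, by rw [h2]; exact hl⟩

theorem Cv.crv {U : Set ℂ} {T : ℝ} {P : ℝ → ℂ} {ℓ : ℝ → ℝ} (h : Cv φ U T P ℓ) :
    Crv (dst φ) T P ℓ :=
  ⟨h.T0, h.cP, h.cl, h.l0, fun a b ha hab hb =>
    dst_le_of_PL (h.sub a b ha hab hb univ fun _ _ => mem_univ _)⟩

theorem exists_geo (hφ : Continuous φ) (x y : ℂ) {e : ℝ} (he : 0 < e) :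
    ∃ T P ℓ, Cv φ univ T P ℓ ∧ Geo (dst φ) e T P ℓ ∧ P 0 = x ∧ P T = y := by
  obtain ⟨T, P, ℓ, hC, h0, h1, h2⟩ := dst_curve hφ (show dst φ x y < dst φ x y + e by linarith)
  refine ⟨T, P, ℓ, hC, ⟨hC.crv, ?_⟩, h0, h1⟩
  rw [h0, h1]; exact h2.le

/-- Intermediate value for the distance to a point along a curve. -/
theorem exists_radius {P : ℝ → ℂ} {a b : ℝ} (hab : a ≤ b) (hP : ContinuousOn P (Icc a b)) (z : ℂ)
    {R : ℝ} (h : R ∈ uIcc ‖P a - z‖ ‖P b - z‖) : ∃ t ∈ Icc a b, ‖P t - z‖ = R := by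
  have hc : ContinuousOn (fun t => ‖P t - z‖) (uIcc a b) := by
    rw [uIcc_of_le hab]
    exact (hP.sub continuousOn_const).norm
  have := intermediate_value_uIcc hc h
  rw [uIcc_of_le hab] at this
  exact this

theorem dst_PMet (hφ : Continuous φ) : PMet (dst φ) where
  nonneg := dst_nonneg φ
  refl := dst_self φ
  symm := dst_symm φ
  tri := dst_tri hφ
  cross := by
    intro x z R e hR hR' he
    obtain ⟨T, P, ℓ, hC, h0, h1, h2⟩ := dst_curve hφ (show dst φ x z < dst φ x z + e by linarith)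
    obtain ⟨t, ht, htR⟩ := exists_radius (R := R) hC.T0 hC.cP z (by
      rw [h0, h1, sub_self, norm_zero, uIcc_of_ge (norm_nonneg _)]
      exact ⟨hR, hR'⟩)
    refine ⟨P t, htR, ?_⟩
    have h3 := hC.crv.le 0 t le_rfl ht.1 ht.2
    have h4 := hC.crv.le t T ht.1 ht.2 le_rfl
    have h5 := dst_nonneg φ (P t) (P T)
    rw [h0, hC.l0] at h3
    linarith

theorem Crv.mono_l {N : ℂ → ℂ → ℝ} (hN : PMet N) {T : ℝ} {P : ℝ → ℂ} {ℓ : ℝ → ℝ}
    (h : Crv N T P ℓ) {a b : ℝ} (ha : 0 ≤ a) (hab : a ≤ b) (hb : b ≤ T) : ℓ a ≤ ℓ b := by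
  have := h.le a b ha hab hb
  have := hN.nonneg (P a) (P b)
  linarith

theorem Geo.sub {N : ℂ → ℂ → ℝ} (hN : PMet N) {e T : ℝ} {P : ℝ → ℂ} {ℓ : ℝ → ℝ}
    (h : Geo N e T P ℓ) {a b : ℝ} (ha : 0 ≤ a) (hab : a ≤ b) (hb : b ≤ T) :
    ℓ b - ℓ a ≤ N (P a) (P b) + e := by
  have h1 := h.le 0 a le_rfl ha (le_trans hab hb)
  have h2 := h.le b T (le_trans ha hab) hb le_rfl
  have h3 := hN.tri (P 0) (P a) (P T)
  have h4 := hN.tri (P a) (P b) (P T)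
  have h5 := h.near
  have h6 := h.l0
  linarith

/-- Comparison of distances. -/
theorem dst_comp_le (hφ : Continuous φ) (hφ' : Continuous φ') {c : ℝ} (hc : ∀ w, φ' w ≤ φ w + c)
    (x y : ℂ) : dst φ' x y ≤ Real.exp c * dst φ x y := by
  refine le_of_forall_pos_le_add fun e he => ?_
  have h1 : Jn φ univ x y (dst φ x y + e / Real.exp c) := (dst_lt_iff hφ).1 (by
    have := div_pos he (Real.exp_pos c); linarith)
  have := (dst_lt_iff hφ').2 (h1.comp_le hφ hφ' (c := c) (fun w _ => hc w))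
  rw [mul_add, mul_div_cancel₀ _ (Real.exp_pos c).ne'] at this
  exact this.le

end Pool.Agent.Work.MP_45d062_pr
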