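import Mathlib

/-!
# Piecewise C¹ paths and the distances `∫ e^φ |dP|`
-/

namespace Pool.Agent.Work.MP_45d062_pr

open MeasureTheory Set

/-- The length of the C¹ path `P : [0,1] → ℂ` with respect to `e^φ |dz|`. -/
noncomputable def plen (φ : ℂ → ℝ) (P : ℝ → ℂ) : ℝ :=
  ∫ t in (0 : ℝ)..1, Real.exp (φ (P t)) * ‖deriv P t‖

/-- `PL φ U x y l`: some path in `U` from `x` to `y`, made of finitely many C¹ pieces, has length
`l` with respect to `e^φ |dz|`. -/
inductive PL (φ : ℂ → ℝ) (U : Set ℂ) : ℂ → ℂ → ℝ → Prop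
  | nil {x : ℂ} : x ∈ U → PL φ U x x 0
  | cons {y : ℂ} {l : ℝ} (P : ℝ → ℂ) : ContDiff ℝ 1 P → (∀ t ∈ Icc (0 : ℝ) 1, P t ∈ U) →
      PL φ U (P 1) y l → PL φ U (P 0) y (plen φ P + l)

/-- Some path in `U` from `x` to `y` has length less than `s`. -/
def Jn (φ : ℂ → ℝ) (U : Set ℂ) (x y : ℂ) (s : ℝ) : Prop := ∃ l < s, PL φ U x y l

variable {φ φ' : ℂ → ℝ} {U U' : Set ℂ} {x y z : ℂ} {s t l m : ℝ}

theorem plen_nonneg (φ : ℂ → ℝ) (P : ℝ → ℂ) : 0 ≤ plen φ P :=
  intervalIntegral.integral_nonneg zero_le_one fun _ _ => by positivity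

theorem PL.nonneg (h : PL φ U x y l) : 0 ≤ l := by
  induction h with
  | nil _ => exact le_rfl
  | cons P _ _ _ ih => exact add_nonneg (plen_nonneg φ P) ih

theorem PL.left_mem (h : PL φ U x y l) : x ∈ U := by
  cases h with
  | nil h => exact h
  | cons P _ h _ => exact h 0 ⟨le_rfl, zero_le_one⟩

theorem PL.right_mem (h : PL φ U x y l) : y ∈ U := by
  induction h with
  | nil h => exact h
  | cons P _ _ _ ih => exact ih

theorem PL.mono (h : PL φ U x y l) (hU : U ⊆ U') : PL φ U' x y l := by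
  induction h with
  | nil h => exact PL.nil (hU h)
  | cons P hP hU1 _ ih => exact PL.cons P hP (fun t ht => hU (hU1 t ht)) ih

theorem PL.trans (h : PL φ U x y l) (h' : PL φ U y z m) : PL φ U x z (l + m) := by
  induction h with
  | nil _ => simpa using h'
  | cons P hP hU1 _ ih => rw [add_assoc]; exact PL.cons P hP hU1 (ih h')

theorem PL.single {P : ℝ → ℂ} (hP : ContDiff ℝ 1 P) (hU : ∀ t ∈ Icc (0 : ℝ) 1, P t ∈ U) :
    PL φ U (P 0) (P 1) (plen φ P) := by
  have := PL.cons (φ := φ) P hP hU (PL.nil (hU 1 ⟨zero_le_one, le_rfl⟩))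
  simpa using this

/-- Affine reparametrisation of a piece. -/
theorem plen_affine (φ : ℂ → ℝ) {P : ℝ → ℂ} (hP : ContDiff ℝ 1 P) {a b : ℝ} (hab : a ≤ b) :
    plen φ (fun s => P (a + (b - a) * s)) = ∫ t in a..b, Real.exp (φ (P t)) * ‖deriv P t‖ := by
  unfold plen
  have hd : ∀ s, deriv (fun s => P (a + (b - a) * s)) s =
      (b - a) • deriv P (a + (b - a) * s) := by
    intro s
    have h1 : HasDerivAt (fun s : ℝ => a + (b - a) * s) (b - a) s := by
      simpa using ((hasDerivAt_id s).const_mul (b - a)).const_add a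
    have h2 : HasDerivAt P (deriv P (a + (b - a) * s)) (a + (b - a) * s) :=
      (hP.differentiable (by norm_num) _).hasDerivAt
    exact (h2.scomp s h1).deriv
  simp only [hd, norm_smul, Real.norm_eq_abs, abs_of_nonneg (sub_nonneg.2 hab)]
  have := intervalIntegral.mul_integral_comp_add_mul (a := 0) (b := 1)
    (f := fun t => Real.exp (φ (P t)) * ‖deriv P t‖) (b - a) a
  simp only [mul_zero, add_zero, mul_one, add_sub_cancel] at this
  rw [← this, ← intervalIntegral.integral_const_mul]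
  congr 1
  ext s
  ring

theorem contDiff_affine {P : ℝ → ℂ} (hP : ContDiff ℝ 1 P) (a b : ℝ) :
    ContDiff ℝ 1 (fun s => P (a + (b - a) * s)) :=
  hP.comp (contDiff_const.add (contDiff_const.mul contDiff_id))

theorem PL.sub {P : ℝ → ℂ} (hP : ContDiff ℝ 1 P) {a b : ℝ} (hab : a ≤ b)
    (hU : ∀ t ∈ Icc a b, P t ∈ U) :
    PL φ U (P a) (P b) (∫ t in a..b, Real.exp (φ (P t)) * ‖deriv P t‖) := by
  have h := PL.single (φ := φ) (U := U) (contDiff_affine hP a b) (fun t ht => by
    apply hU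
    constructor
    · nlinarith [ht.1, ht.2]
    · nlinarith [ht.1, ht.2])
  rw [plen_affine φ hP hab] at h
  simpa using h

theorem plen_reverse (φ : ℂ → ℝ) {P : ℝ → ℂ} (hP : ContDiff ℝ 1 P) :
    plen φ (fun s => P (1 - s)) = plen φ P := by
  unfold plen
  have hd : ∀ s, deriv (fun s => P (1 - s)) s = - deriv P (1 - s) := by
    intro s
    have h1 : HasDerivAt (fun s : ℝ => 1 - s) (-1) s := by
      simpa using (hasDerivAt_id s).const_sub 1
    have h2 : HasDerivAt P (deriv P (1 - s)) (1 - s) :=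
      (hP.differentiable (by norm_num) _).hasDerivAt
    have h3 := (h2.scomp s h1).deriv
    simp only [neg_smul, one_smul] at h3
    exact h3
  simp only [hd, norm_neg]
  have := intervalIntegral.integral_comp_sub_left (a := 0) (b := 1)
    (fun t => Real.exp (φ (P t)) * ‖deriv P t‖) 1
  simpa using this

theorem PL.symm (h : PL φ U x y l) : PL φ U y x l := by
  induction h with
  | nil h => exact PL.nil h
  | cons P hP hU1 _ ih =>
    have h1 : PL φ U (P 1) (P 0) (plen φ P) := by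
      have := PL.single (φ := φ) (U := U) (P := fun s => P (1 - s))
        (hP.comp (contDiff_const.sub contDiff_id)) (fun t ht => hU1 _ ⟨by linarith [ht.2],
          by linarith [ht.1]⟩)
      rw [plen_reverse φ hP] at this
      simpa using this
    rw [add_comm]
    exact ih.trans h1

/-! ### API for `Jn` -/

theorem Jn.pos (h : Jn φ U x y s) : 0 < s := by
  obtain ⟨l, hl, h⟩ := h
  exact lt_of_le_of_lt h.nonneg hl

theorem Jn.symm (h : Jn φ U x y s) : Jn φ U y x s := by
  obtain ⟨l, hl, h⟩ := h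
  exact ⟨l, hl, h.symm⟩

theorem Jn.trans (h : Jn φ U x y s) (h' : Jn φ U y z t) : Jn φ U x z (s + t) := by
  obtain ⟨l, hl, h⟩ := h
  obtain ⟨m, hm, h'⟩ := h'
  exact ⟨l + m, add_lt_add hl hm, h.trans h'⟩

theorem Jn.mono (h : Jn φ U x y s) (hU : U ⊆ U') (hs : s ≤ t) : Jn φ U' x y t := by
  obtain ⟨l, hl, h⟩ := h
  exact ⟨l, lt_of_lt_of_le hl hs, h.mono hU⟩

theorem Jn.left_mem (h : Jn φ U x y s) : x ∈ U := by
  obtain ⟨l, _, h⟩ := h; exact h.left_mem

theorem Jn.right_mem (h : Jn φ U x y s) : y ∈ U := by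
  obtain ⟨l, _, h⟩ := h; exact h.right_mem

theorem Jn.refl (hx : x ∈ U) (hs : 0 < s) : Jn φ U x x s := ⟨0, hs, PL.nil hx⟩

/-! ### Comparison of densities -/

theorem intervalIntegrable_dens (hφ : Continuous φ) {P : ℝ → ℂ} (hP : ContDiff ℝ 1 P) (a b : ℝ) :
    IntervalIntegrable (fun t => Real.exp (φ (P t)) * ‖deriv P t‖) volume a b := by
  apply Continuous.intervalIntegrable
  exact (Real.continuous_exp.comp (hφ.comp hP.continuous)).mul
    (hP.continuous_deriv le_rfl).norm

theorem PL.comp_le (hφ : Continuous φ) (hφ' : Continuous φ') {c : ℝ}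
    (hc : ∀ w ∈ U, φ' w ≤ φ w + c) (h : PL φ U x y l) :
    ∃ l' ≤ Real.exp c * l, PL φ' U x y l' := by
  induction h with
  | nil h => exact ⟨0, by simp, PL.nil h⟩
  | cons P hP hU1 _ ih =>
    obtain ⟨l', hl', h'⟩ := ih
    refine ⟨plen φ' P + l', ?_, PL.cons P hP hU1 h'⟩
    rw [mul_add]
    refine add_le_add ?_ hl'
    unfold plen
    rw [← intervalIntegral.integral_const_mul]
    refine intervalIntegral.integral_mono_on zero_le_one (intervalIntegrable_dens hφ' hP _ _)
      ((intervalIntegrable_dens hφ hP _ _).const_mul _) fun t ht => ?_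
    rw [← mul_assoc, ← Real.exp_add]
    refine mul_le_mul_of_nonneg_right (Real.exp_le_exp.2 ?_) (norm_nonneg _)
    have := hc (P t) (hU1 t ht)
    linarith

theorem Jn.comp_le (hφ : Continuous φ) (hφ' : Continuous φ') {c : ℝ}
    (hc : ∀ w ∈ U, φ' w ≤ φ w + c) (h : Jn φ U x y s) : Jn φ' U x y (Real.exp c * s) := by
  obtain ⟨l, hl, h⟩ := h
  obtain ⟨l', hl', h'⟩ := h.comp_le hφ hφ' hc
  exact ⟨l', lt_of_le_of_lt hl' (mul_lt_mul_of_pos_left hl (Real.exp_pos c)), h'⟩

/-- The straight segment. -/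
theorem Jn.segment (hφ : Continuous φ) {M : ℝ} (hU : ∀ t ∈ Icc (0 : ℝ) 1, x + t * (y - x) ∈ U)
    (hM : ∀ t ∈ Icc (0 : ℝ) 1, φ (x + t * (y - x)) ≤ M) (hs : Real.exp M * ‖y - x‖ < s) :
    Jn φ U x y s := by
  let P : ℝ → ℂ := fun t => x + t * (y - x)
  have hP : ContDiff ℝ 1 P :=
    contDiff_const.add ((Complex.ofRealCLM.contDiff).mul contDiff_const)
  have hd : ∀ t, deriv P t = y - x := by
    intro t
    have h1 : HasDerivAt (fun t : ℝ => (t : ℂ)) 1 t := Complex.ofRealCLM.hasDerivAt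
    have h2 : HasDerivAt P (1 * (y - x)) t := by
      simpa [P] using (h1.mul_const (y - x)).const_add x
    simpa using h2.deriv
  have h := PL.single (φ := φ) (U := U) hP hU
  have h0 : P 0 = x := by simp [P]
  have h1 : P 1 = y := by simp [P]
  rw [h0, h1] at h
  refine ⟨_, lt_of_le_of_lt ?_ hs, h⟩
  unfold plen
  have hb : ∀ t ∈ Icc (0 : ℝ) 1, Real.exp (φ (P t)) * ‖deriv P t‖ ≤ Real.exp M * ‖y - x‖ := by
    intro t ht
    rw [hd]
    exact mul_le_mul_of_nonneg_right (Real.exp_le_exp.2 (hM t ht)) (norm_nonneg _)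
  have := intervalIntegral.integral_mono_on zero_le_one (intervalIntegrable_dens hφ hP 0 1)
    (intervalIntegrable_const (c := Real.exp M * ‖y - x‖)) hb
  simpa using this

/-- Lower bound. -/
theorem PL.lower (hφ : Continuous φ) {c : ℝ} (hc : ∀ w ∈ U, c ≤ φ w) (h : PL φ U x y l) :
    Real.exp c * ‖y - x‖ ≤ l := by
  induction h with
  | nil h => simp
  | @cons y l P hP hU1 _ ih =>
    have h1 : Real.exp c * ‖P 1 - P 0‖ ≤ plen φ P := by
      have e1 : P 1 - P 0 = ∫ t in (0 : ℝ)..1, deriv P t := by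
        rw [intervalIntegral.integral_deriv_eq_sub
          (fun t _ => hP.differentiable (by norm_num) t)
          ((hP.continuous_deriv le_rfl).intervalIntegrable _ _)]
      rw [e1]
      have e2 : ‖∫ t in (0 : ℝ)..1, deriv P t‖ ≤ ∫ t in (0 : ℝ)..1, ‖deriv P t‖ :=
        intervalIntegral.norm_integral_le_integral_norm zero_le_one
      refine le_trans (mul_le_mul_of_nonneg_left e2 (Real.exp_pos c).le) ?_
      unfold plen
      rw [← intervalIntegral.integral_const_mul]
      refine intervalIntegral.integral_mono_on zero_le_one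
        (((hP.continuous_deriv le_rfl).norm.intervalIntegrable _ _).const_mul _)
        (intervalIntegrable_dens hφ hP _ _) fun t ht => ?_
      exact mul_le_mul_of_nonneg_right (Real.exp_le_exp.2 (hc _ (hU1 t ht))) (norm_nonneg _)
    have h2 : ‖y - P 0‖ ≤ ‖y - P 1‖ + ‖P 1 - P 0‖ := by
      have := norm_add_le (y - P 1) (P 1 - P 0)
      simpa using this
    have h3 := mul_le_mul_of_nonneg_left h2 (Real.exp_pos c).le
    rw [mul_add] at h3
    linarith

theorem Jn.lower (hφ : Continuous φ) {c : ℝ} (hc : ∀ w ∈ U, c ≤ φ w) (h : Jn φ U x y s) :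
    Real.exp c * ‖y - x‖ < s := by
  obtain ⟨l, hl, h⟩ := h
  exact lt_of_le_of_lt (h.lower hφ hc) hl

/-! ### Curves -/

/-- A continuous curve `P` on `[0,T]` in `U` with a length function `ℓ`. -/
structure Cv (φ : ℂ → ℝ) (U : Set ℂ) (T : ℝ) (P : ℝ → ℂ) (ℓ : ℝ → ℝ) : Prop where
  T0 : 0 ≤ T
  cP : ContinuousOn P (Icc 0 T)
  cl : ContinuousOn ℓ (Icc 0 T)
  l0 : ℓ 0 = 0
  sub : ∀ a b, 0 ≤ a → a ≤ b → b ≤ T → ∀ V : Set ℂ, (∀ t ∈ Icc a b, P t ∈ V) →
    PL φ V (P a) (P b) (ℓ b - ℓ a)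
  mem : ∀ t ∈ Icc 0 T, P t ∈ U

theorem PL.curve (hφ : Continuous φ) (h : PL φ U x y l) :
    ∃ T P ℓ, Cv φ U T P ℓ ∧ P 0 = x ∧ P T = y ∧ ℓ T = l := by
  induction h with
  | @nil x hx =>
    refine ⟨0, fun _ => x, fun _ => 0, ⟨le_rfl, continuousOn_const, continuousOn_const, rfl, ?_,
      fun t _ => hx⟩, rfl, rfl, rfl⟩
    intro a b ha hab hb V hV
    simpa using PL.nil (φ := φ) (hV a ⟨le_rfl, hab⟩)
  | @cons y l P hP hU1 _ ih =>
    obtain ⟨T, Q, m, hQ, hQ0, hQT, hm⟩ := ih
    set ℓ1 : ℝ → ℝ := fun t => ∫ u in (0 : ℝ)..t, Real.exp (φ (P u)) * ‖deriv P u‖ with hℓ1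
    have hcl1 : Continuous ℓ1 := by
      apply intervalIntegral.continuous_primitive
      intro a b
      exact intervalIntegrable_dens hφ hP a b
    have hℓ11 : ℓ1 1 = plen φ P := rfl
    have hT := hQ.T0
    set R : ℝ → ℂ := fun t => if t ≤ 1 then P t else Q (t - 1) with hR
    set k : ℝ → ℝ := fun t => if t ≤ 1 then ℓ1 t else plen φ P + m (t - 1) with hk
    have hR1 : ∀ t ≤ 1, R t = P t := fun t ht => by simp [hR, ht]
    have hk1 : ∀ t ≤ 1, k t = ℓ1 t := fun t ht => by simp [hk, ht]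
    have hR2 : ∀ t, 1 ≤ t → R t = Q (t - 1) := fun t ht => by
      rcases eq_or_lt_of_le ht with rfl | h
      · simp [hR, hQ0]
      · simp [hR, not_le.2 h]
    have hk2 : ∀ t, 1 ≤ t → k t = plen φ P + m (t - 1) := fun t ht => by
      rcases eq_or_lt_of_le ht with rfl | h
      · simp [hk, hQ.l0, hℓ11]
      · simp [hk, not_le.2 h]
    have hsub : ∀ t ∈ Icc 1 (1 + T), t - 1 ∈ Icc 0 T := fun t ht =>
      ⟨by linarith [ht.1], by linarith [ht.2]⟩
    have hunion : Icc (0 : ℝ) (1 + T) = Icc 0 1 ∪ Icc 1 (1 + T) :=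
      (Icc_union_Icc_eq_Icc zero_le_one (by linarith)).symm
    have hpiece1 : ∀ a b, 0 ≤ a → a ≤ b → b ≤ 1 → ∀ V : Set ℂ, (∀ t ∈ Icc a b, R t ∈ V) →
        PL φ V (R a) (R b) (k b - k a) := by
      intro a b ha hab hb V hV
      rw [hR1 a (by linarith), hR1 b hb, hk1 a (by linarith), hk1 b hb]
      have e : ℓ1 b - ℓ1 a = ∫ u in a..b, Real.exp (φ (P u)) * ‖deriv P u‖ :=
        intervalIntegral.integral_interval_sub_left (intervalIntegrable_dens hφ hP _ _)
          (intervalIntegrable_dens hφ hP _ _)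
      rw [e]
      exact PL.sub hP hab fun t ht => by
        have := hV t ht
        rwa [hR1 t (le_trans ht.2 hb)] at this
    have hpiece2 : ∀ a b, 1 ≤ a → a ≤ b → b ≤ 1 + T → ∀ V : Set ℂ, (∀ t ∈ Icc a b, R t ∈ V) →
        PL φ V (R a) (R b) (k b - k a) := by
      intro a b ha hab hb V hV
      rw [hR2 a ha, hR2 b (by linarith), hk2 a ha, hk2 b (by linarith)]
      have := hQ.sub (a - 1) (b - 1) (by linarith) (by linarith) (by linarith) V (fun t ht => by
        have h := hV (t + 1) ⟨by linarith [ht.1], by linarith [ht.2]⟩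
        rwa [hR2 (t + 1) (by linarith [ht.1]), add_sub_cancel_right] at h)
      have e : plen φ P + m (b - 1) - (plen φ P + m (a - 1)) = m (b - 1) - m (a - 1) := by ring
      rw [e]; exact this
    refine ⟨1 + T, R, k, ⟨by linarith, ?_, ?_, ?_, ?_, ?_⟩, ?_, ?_, ?_⟩
    · rw [hunion]
      refine ContinuousOn.union_of_isClosed ?_ ?_ isClosed_Icc isClosed_Icc
      · exact hP.continuous.continuousOn.congr fun t ht => hR1 t ht.2
      · exact (hQ.cP.comp (continuousOn_id.sub continuousOn_const) hsub).congr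
          fun t ht => hR2 t ht.1
    · rw [hunion]
      refine ContinuousOn.union_of_isClosed ?_ ?_ isClosed_Icc isClosed_Icc
      · exact hcl1.continuousOn.congr fun t ht => hk1 t ht.2
      · exact (continuousOn_const.add
          (hQ.cl.comp (continuousOn_id.sub continuousOn_const) hsub)).congr
          fun t ht => hk2 t ht.1
    · rw [hk1 0 zero_le_one]; simp [hℓ1]
    · intro a b ha hab hb V hV
      rcases le_total b 1 with hb1 | hb1
      · exact hpiece1 a b ha hab hb1 V hV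
      · rcases le_total a 1 with ha1 | ha1
        · have h1 := hpiece1 a 1 ha ha1 le_rfl V (fun t ht => hV t ⟨ht.1, le_trans ht.2 hb1⟩)
          have h2 := hpiece2 1 b le_rfl hb1 hb V (fun t ht => hV t ⟨le_trans ha1 ht.1, ht.2⟩)
          have := h1.trans h2
          have e : k 1 - k a + (k b - k 1) = k b - k a := by ring
          rwa [e] at this
        · exact hpiece2 a b ha1 hab hb V hV
    · intro t ht
      rcases le_total t 1 with h | h
      · rw [hR1 t h]; exact hU1 t ⟨ht.1, h⟩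
      · rw [hR2 t h]; exact hQ.mem _ (hsub t ⟨h, ht.2⟩)
    · exact hR1 0 zero_le_one
    · rw [hR2 _ (by linarith)]; simpa using hQT
    · rw [hk2 _ (by linarith)]; simpa using hm

end Pool.Agent.Work.MP_45d062_pr
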