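import Pool.Agent.Work.MP_45d062_pr.Metric

/-!
# The step lemma
-/

namespace Pool.Agent.Work.MP_45d062_pr

open MeasureTheory Set

section times

variable {P : ℝ → ℂ} {T σ : ℝ} {z : ℂ} {R : ℝ}

/-- First time in `[a,b]` at distance at most `R` from `z`. -/
theorem exists_first {a b : ℝ} (hab : a ≤ b) (hP : ContinuousOn P (Icc a b))
    (h0 : R < ‖P a - z‖) (hσ : ‖P b - z‖ ≤ R) :
    ∃ α ∈ Icc a b, ‖P α - z‖ = R ∧ ∀ s, a ≤ s → s < α → R < ‖P s - z‖ := by
  have hc : ContinuousOn (fun t => ‖P t - z‖) (Icc a b) := (hP.sub continuousOn_const).norm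
  set S := Icc a b ∩ (fun t => ‖P t - z‖) ⁻¹' Iic R with hS
  have hcl : IsClosed S := hc.preimage_isClosed_of_isClosed isClosed_Icc isClosed_Iic
  have hne : S.Nonempty := ⟨b, ⟨hab, le_rfl⟩, hσ⟩
  have hbd : BddBelow S := ⟨a, fun t ht => ht.1.1⟩
  have hmem := hcl.csInf_mem hne hbd
  have hlt : ∀ s, a ≤ s → s < sInf S → R < ‖P s - z‖ := by
    intro s h1 h2
    by_contra h3
    exact absurd (csInf_le hbd ⟨⟨h1, le_trans h2.le hmem.1.2⟩, not_lt.1 h3⟩) (not_le.2 h2)
  refine ⟨sInf S, hmem.1, le_antisymm hmem.2 ?_, hlt⟩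
  by_contra hcon
  push Not at hcon
  obtain ⟨t, ht, htR⟩ := exists_radius (R := R) hmem.1.1
    (hP.mono (Icc_subset_Icc_right hmem.1.2)) z (by
      rw [uIcc_of_ge (by linarith)]
      exact ⟨hcon.le, h0.le⟩)
  rcases eq_or_lt_of_le ht.2 with h | h
  · rw [h] at htR; linarith
  · have := hlt t ht.1 h; linarith

/-- Last time in `[a,b]` at distance at most `R` from `z`. -/
theorem exists_last {a b : ℝ} (hab : a ≤ b) (hP : ContinuousOn P (Icc a b))
    (h0 : ‖P a - z‖ ≤ R) (hσ : R < ‖P b - z‖) :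
    ∃ β ∈ Icc a b, ‖P β - z‖ = R ∧ ∀ s, β < s → s ≤ b → R < ‖P s - z‖ := by
  have hP' : ContinuousOn (fun t => P (a + b - t)) (Icc a b) := by
    refine hP.comp (continuousOn_const.sub continuousOn_id) fun t ht => ?_
    exact ⟨by linarith [ht.2], by linarith [ht.1]⟩
  obtain ⟨α, hα, h1, h2⟩ := exists_first (R := R) (z := z) (P := fun t => P (a + b - t)) hab hP'
    (by simpa using hσ) (by simpa using h0)
  refine ⟨a + b - α, ⟨by linarith [hα.2], by linarith [hα.1]⟩, h1, fun s hs hs' => ?_⟩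
  have := h2 (a + b - s) (by linarith) (by linarith)
  simpa using this

/-- First time in `[a,b]` at distance `R` from `z`, starting inside. -/
theorem exists_exit {a b : ℝ} (hab : a ≤ b) (hP : ContinuousOn P (Icc a b))
    (h0 : ‖P a - z‖ < R) (hσ : R ≤ ‖P b - z‖) :
    ∃ τ ∈ Icc a b, ‖P τ - z‖ = R ∧ ∀ s ∈ Icc a τ, ‖P s - z‖ ≤ R := by
  have hc : ContinuousOn (fun t => ‖P t - z‖) (Icc a b) := (hP.sub continuousOn_const).norm
  set S := Icc a b ∩ (fun t => ‖P t - z‖) ⁻¹' Ici R with hS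
  have hcl : IsClosed S := hc.preimage_isClosed_of_isClosed isClosed_Icc isClosed_Ici
  have hne : S.Nonempty := ⟨b, ⟨hab, le_rfl⟩, hσ⟩
  have hbd : BddBelow S := ⟨a, fun t ht => ht.1.1⟩
  have hmem := hcl.csInf_mem hne hbd
  have hlt : ∀ s, a ≤ s → s < sInf S → ‖P s - z‖ < R := by
    intro s h1 h2
    by_contra h3
    exact absurd (csInf_le hbd ⟨⟨h1, le_trans h2.le hmem.1.2⟩, not_lt.1 h3⟩) (not_le.2 h2)
  have heq : ‖P (sInf S) - z‖ = R := by
    refine le_antisymm ?_ hmem.2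
    by_contra hcon
    push Not at hcon
    obtain ⟨t, ht, htR⟩ := exists_radius (R := R) hmem.1.1
      (hP.mono (Icc_subset_Icc_right hmem.1.2)) z (by
        rw [uIcc_of_le (by linarith)]
        exact ⟨h0.le, hcon.le⟩)
    rcases eq_or_lt_of_le ht.2 with h | h
    · rw [h] at htR; linarith
    · have := hlt t ht.1 h; linarith
  refine ⟨sInf S, hmem.1, heq, fun s hs => ?_⟩
  rcases eq_or_lt_of_le hs.2 with h | h
  · rw [h, heq]
  · exact (hlt s hs.1 h).le

end times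

/-- The annulus containing a given radius. -/
theorem exists_annulus {r : ℕ → ℝ} {k k' : ℕ} (hkk : k < k') {v : ℝ} (h1 : r k' ≤ v)
    (h2 : v ≤ r k) : ∃ i, k ≤ i ∧ i < k' ∧ r (i + 1) ≤ v ∧ v ≤ r i := by
  induction k', (Nat.succ_le_of_lt hkk) using Nat.le_induction with
  | base => exact ⟨k, le_rfl, Nat.lt_succ_self k, h1, h2⟩
  | succ m hm ih =>
    rcases le_total (r m) v with h | h
    · obtain ⟨i, a, b, c, d⟩ := ih (by omega) h
      exact ⟨i, a, by omega, c, d⟩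
    · exact ⟨m, by omega, by omega, h1, h⟩

section
variable {N N' : ℂ → ℂ → ℝ} {e T : ℝ} {P : ℝ → ℂ} {ℓ : ℝ → ℝ} {z : ℂ} {k k' : ℕ} {r t A : ℕ → ℝ}
  {ρ δ C : ℝ}

/-- The pieces: from `v = P σ'` to `P τ` inside the annulus. -/
theorem pieces (hN' : PMet N') (hP : Crv N T P ℓ) (hN : PMet N) {σ' τ : ℝ} (hσ' : 0 ≤ σ')
    (hστ : σ' ≤ τ) (hτ : τ ≤ T) (hkk : k < k') (hr : ∀ i, 0 < r i)
    (hrd : ∀ i, r (i + 1) = r i / 2) (hρ : 0 < ρ) (hδ : 0 < δ)
    (ht : ∀ i, k ≤ i → i < k' → 0 < t i)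
    (ha : ∀ i, k ≤ i → i < k' → ∀ x y, r (i + 1) ≤ ‖x - z‖ → ‖x - z‖ ≤ r i →
      r i / 8 ≤ ‖y - x‖ → t i ≤ N x y)
    (hb : ∀ i, k ≤ i → i < k' → ∀ x y, r (i + 1) ≤ ‖x - z‖ → ‖x - z‖ ≤ r i → N x y < t i →
      N' x y ≤ ρ * ((1 + δ) * N x y + δ * t i / 2))
    (hin : ∀ s ∈ Icc σ' τ, r k' ≤ ‖P s - z‖ ∧ ‖P s - z‖ ≤ r k) (hend : ‖P τ - z‖ = r k) :
    N' (P σ') (P τ) ≤ ρ * (1 + 2 * δ) * (ℓ τ - ℓ σ') + ρ * δ * t k / 2 := by
  have hanti : ∀ i j, i ≤ j → r j ≤ r i := by
    intro i j hij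
    induction j, hij using Nat.le_induction with
    | base => exact le_rfl
    | succ m _ ih => rw [hrd]; linarith [hr m]
  obtain ⟨m, hm0, hm⟩ : ∃ m > 0, ∀ i, k ≤ i → i < k' → m ≤ t i := by
    obtain ⟨i, hi, hmin⟩ := Finset.exists_min_image (Finset.Ico k k') t
      ⟨k, Finset.mem_Ico.2 ⟨le_rfl, hkk⟩⟩
    rw [Finset.mem_Ico] at hi
    exact ⟨t i, ht i hi.1 hi.2, fun j h1 h2 => hmin j (Finset.mem_Ico.2 ⟨h1, h2⟩)⟩
  have hlast : N' (P σ') (P σ') ≤ ρ * (1 + 2 * δ) * (ℓ σ' - ℓ σ') := by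
    rw [hN'.refl]; simp
  have key : ∀ n : ℕ, ∀ s ∈ Icc σ' τ, N' (P σ') (P s) ≤ ρ * (1 + 2 * δ) * (ℓ s - ℓ σ') →
      ℓ τ - ℓ s ≤ n * (m / 2) →
      N' (P σ') (P τ) ≤ ρ * (1 + 2 * δ) * (ℓ τ - ℓ σ') + ρ * δ * t k / 2 := by
    intro n
    induction n with
    | zero =>
      intro s hs hsN hn
      -- no length left
      simp only [Nat.cast_zero, zero_mul] at hn
      have h1 := hP.le s τ (le_trans hσ' hs.1) hs.2 hτ
      have h2 := hN.nonneg (P s) (P τ)
      obtain ⟨i, hi1, hi2, hi3, hi4⟩ := exists_annulus hkk (hin s hs).1 (hin s hs).2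
      have h3 : N (P s) (P τ) = 0 := by linarith
      have hti := ht i hi1 hi2
      have htk := ht k le_rfl hkk
      rcases eq_or_lt_of_le hi1 with hik | hik
      · subst hik
        have h4 := hb k le_rfl hi2 (P s) (P τ) hi3 hi4 (by rw [h3]; exact hti)
        rw [h3] at h4
        have h5 := hN'.tri (P σ') (P s) (P τ)
        have h6 : ℓ s = ℓ τ := by
          have := hP.mono_l hN (le_trans hσ' hs.1) hs.2 hτ
          linarith
        rw [h6] at hsN
        nlinarith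
      · exfalso
        have h4 := ha i hi1 hi2 (P s) (P τ) hi3 hi4 (by
          have h5 : ‖P τ - z‖ ≤ ‖P τ - P s‖ + ‖P s - z‖ := by
            have := norm_add_le (P τ - P s) (P s - z); simpa using this
          have h6 := hanti (k + 1) i hik
          rw [hrd] at h6
          have := hr i
          linarith)
        linarith
    | succ n ih =>
      intro s hs hsN hn
      obtain ⟨i, hi1, hi2, hi3, hi4⟩ := exists_annulus hkk (hin s hs).1 (hin s hs).2
      have hti := ht i hi1 hi2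
      have h5 := hN'.tri (P σ') (P s) (P τ)
      rcases lt_or_ge (ℓ τ - ℓ s) (t i / 2) with hlt | hge
      · -- the last piece
        have h1 := hP.le s τ (le_trans hσ' hs.1) hs.2 hτ
        have h2 := hN.nonneg (P s) (P τ)
        rcases eq_or_lt_of_le hi1 with hik | hik
        · subst hik
          have h4 := hb k le_rfl hi2 (P s) (P τ) hi3 hi4 (by linarith)
          have h6 : (1 + δ) * N (P s) (P τ) ≤ (1 + 2 * δ) * (ℓ τ - ℓ s) := by nlinarith
          nlinarith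
        · exfalso
          have h4 := ha i hi1 hi2 (P s) (P τ) hi3 hi4 (by
            have h5 : ‖P τ - z‖ ≤ ‖P τ - P s‖ + ‖P s - z‖ := by
              have := norm_add_le (P τ - P s) (P s - z); simpa using this
            have h6 := hanti (k + 1) i hik
            rw [hrd] at h6
            have := hr i
            linarith)
          linarith
      · -- a complete piece
        have hcl : ContinuousOn ℓ (Icc s τ) :=
          hP.cl.mono (Icc_subset_Icc (le_trans hσ' hs.1) hτ)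
        obtain ⟨s', hs', hs'l⟩ := intermediate_value_Icc hs.2 hcl
          (show ℓ s + t i / 2 ∈ Icc (ℓ s) (ℓ τ) from ⟨by linarith, by linarith⟩)
        have h1 := hP.le s s' (le_trans hσ' hs.1) hs'.1 (le_trans hs'.2 hτ)
        have h2 := hN.nonneg (P s) (P s')
        have h4 := hb i hi1 hi2 (P s) (P s') hi3 hi4 (by linarith)
        have h6 := hN'.tri (P σ') (P s) (P s')
        refine ih s' ⟨le_trans hs.1 hs'.1, hs'.2⟩ ?_ ?_
        · have h7 : (1 + δ) * N (P s) (P s') + δ * t i / 2 ≤ (1 + 2 * δ) * (ℓ s' - ℓ s) := by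
            have : N (P s) (P s') ≤ t i / 2 := by linarith
            have h8 : ℓ s' - ℓ s = t i / 2 := by linarith
            rw [h8]
            nlinarith
          nlinarith
        · have := hm i hi1 hi2
          push_cast at hn
          nlinarith
  obtain ⟨n, hn⟩ := exists_nat_gt ((ℓ τ - ℓ σ') / (m / 2))
  refine key n σ' ⟨le_rfl, hστ⟩ hlast ?_
  have := (div_lt_iff₀ (by linarith : (0 : ℝ) < m / 2)).1 hn
  linarith

/-- The decay of the length of a near-geodesic around one of its points. -/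
theorem decay (hN : PMet N) (hP : Geo N e T P ℓ) (he0 : 0 ≤ e) {σ : ℝ} (hσ : σ ∈ Icc 0 T)
    (hz : P σ = z) (hkk : k < k') (hr : ∀ i, 0 < r i) (hrd : ∀ i, r (i + 1) = r i / 2)
    (h0 : r k < ‖P 0 - z‖) (hT : r k ≤ ‖P T - z‖) (hC : 1 ≤ C) (I : Finset ℕ)
    (hI : ∀ i ∈ I, k < i ∧ i < k')
    (hA : ∀ i, (i = k' ∨ i ∈ I) → ∀ x y, ‖x - z‖ = r i → ‖y - z‖ = r (i + 1) → A i ≤ N x y)
    (hcmp : ∀ i, (i = k ∨ i ∈ I) → ∀ x y, ‖x - z‖ = r (i + 1) → ‖y - z‖ = r (i + 1) →
      N x y ≤ C * A i) :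
    A k' ≤ (C / (C + 1)) ^ I.card * (C * A k + e) + e * (C + 1) := by
  have hanti : ∀ i j, i < j → r j < r i := by
    intro i j hij
    induction j, (Nat.succ_le_of_lt hij) using Nat.le_induction with
    | base => rw [hrd]; linarith [hr i]
    | succ m hm ih => have := ih (by omega); rw [hrd]; linarith [hr m]
  have hcP := hP.cP
  have hfirst : ∀ i, k < i → ∃ α ∈ Icc 0 σ, ‖P α - z‖ = r i ∧
      ∀ s, 0 ≤ s → s < α → r i < ‖P s - z‖ := by
    intro i hi
    refine exists_first hσ.1 (hcP.mono (Icc_subset_Icc_right hσ.2)) ?_ ?_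
    · exact lt_trans (hanti k i hi) h0
    · rw [hz, sub_self, norm_zero]; exact (hr i).le
  have hlast : ∀ i, k < i → ∃ β ∈ Icc σ T, ‖P β - z‖ = r i ∧
      ∀ s, β < s → s ≤ T → r i < ‖P s - z‖ := by
    intro i hi
    refine exists_last hσ.2 (hcP.mono (Icc_subset_Icc_left hσ.1)) ?_ ?_
    · rw [hz, sub_self, norm_zero]; exact (hr i).le
    · exact lt_of_lt_of_le (hanti k i hi) hT
  choose! α hα1 hα2 hα3 using hfirst
  choose! β hβ1 hβ2 hβ3 using hlast
  have hαm : ∀ i, k < i → α i ≤ α (i + 1) := by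
    intro i hi
    by_contra hcon
    push Not at hcon
    have h1 := hα3 i hi (α (i + 1)) (hα1 (i + 1) (by omega)).1 hcon
    rw [hα2 (i + 1) (by omega)] at h1
    have := hanti i (i + 1) (by omega)
    linarith
  have hβm : ∀ i, k < i → β (i + 1) ≤ β i := by
    intro i hi
    by_contra hcon
    push Not at hcon
    have h1 := hβ3 i hi (β (i + 1)) hcon (hβ1 (i + 1) (by omega)).2
    rw [hβ2 (i + 1) (by omega)] at h1
    have := hanti i (i + 1) (by omega)
    linarith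
  set L : ℕ → ℝ := fun i => ℓ (β i) - ℓ (α i) with hL
  have hαβ : ∀ i, k < i → α i ≤ β i := fun i hi => le_trans (hα1 i hi).2 (hβ1 i hi).1
  have hcross : ∀ i, k < i → (i = k' ∨ i ∈ I) → A i ≤ ℓ (α (i + 1)) - ℓ (α i) := by
    intro i hi hi'
    refine le_trans (hA i hi' (P (α i)) (P (α (i + 1))) (hα2 i hi) (hα2 (i + 1) (by omega))) ?_
    exact hP.le _ _ (hα1 i hi).1 (hαm i hi)
      (le_trans (hα1 (i + 1) (by omega)).2 hσ.2)
  have hmono : ∀ i, k < i → L (i + 1) + (ℓ (α (i + 1)) - ℓ (α i)) ≤ L i := by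
    intro i hi
    have h1 := hP.mono_l hN (le_trans hσ.1 (hβ1 (i + 1) (by omega)).1) (hβm i hi) (hβ1 i hi).2
    simp only [hL]
    linarith
  have hα0 : ∀ i, k < i → 0 ≤ ℓ (α (i + 1)) - ℓ (α i) := by
    intro i hi
    have := hP.mono_l hN (hα1 i hi).1 (hαm i hi) (le_trans (hα1 (i + 1) (by omega)).2 hσ.2)
    linarith
  have hcmpL : ∀ i, (i = k ∨ i ∈ I) → L (i + 1) ≤ C * A i + e := by
    intro i hi
    have hki : k ≤ i := by
      rcases hi with h | h
      · omega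
      · exact (hI i h).1.le
    have h1 := hP.sub hN (hα1 (i + 1) (by omega)).1 (hαβ (i + 1) (by omega))
      (hβ1 (i + 1) (by omega)).2
    have h2 := hcmp i hi _ _ (hα2 (i + 1) (by omega)) (hβ2 (i + 1) (by omega))
    simp only [hL]
    linarith
  have hC1 : (0 : ℝ) < C + 1 := by linarith
  have hlam0 : 0 ≤ C / (C + 1) := by positivity
  have hlam1 : C / (C + 1) ≤ 1 := by rw [div_le_one hC1]; linarith
  have key : ∀ j, k + 1 ≤ j → j ≤ k' →
      L j ≤ (C / (C + 1)) ^ (I.filter (fun i => i < j)).card * L (k + 1) + e * (C + 1) := by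
    intro j hj
    induction j, hj using Nat.le_induction with
    | base =>
      intro _
      have hemp : I.filter (fun i => i < k + 1) = ∅ := by
        rw [Finset.filter_eq_empty_iff]
        intro i hi
        have := (hI i hi).1
        omega
      rw [hemp]
      simp only [Finset.card_empty, pow_zero, one_mul]
      nlinarith
    | succ j hj ih =>
      intro hj'
      have ih' := ih (by omega)
      by_cases hjI : j ∈ I
      · have hfil : I.filter (fun i => i < j + 1) = insert j (I.filter (fun i => i < j)) := by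
          ext i
          simp only [Finset.mem_filter, Finset.mem_insert]
          constructor
          · rintro ⟨h1, h2⟩
            rcases Nat.lt_succ_iff_lt_or_eq.1 h2 with h | h
            · exact Or.inr ⟨h1, h⟩
            · exact Or.inl h
          · rintro (h | ⟨h1, h2⟩)
            · rw [h]; exact ⟨hjI, Nat.lt_succ_self j⟩
            · exact ⟨h1, by omega⟩
        rw [hfil, Finset.card_insert_of_notMem (by simp), pow_succ]
        have h1 := hcmpL j (Or.inr hjI)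
        have h2 := hcross j (by omega) (Or.inr hjI)
        have h3 := hmono j (by omega)
        have h4 : (C + 1) * L (j + 1) ≤ C * L j + e := by nlinarith
        have h5 : L (j + 1) ≤ C / (C + 1) * L j + e / (C + 1) := by
          rw [div_mul_eq_mul_div, ← add_div, le_div_iff₀ hC1]
          linarith
        have h6 := mul_le_mul_of_nonneg_left ih' hlam0
        have h7 : C / (C + 1) * (e * (C + 1)) + e / (C + 1) ≤ e * (C + 1) := by
          have e1 : C / (C + 1) * (e * (C + 1)) = e * C := by field_simp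
          have e2 : e / (C + 1) ≤ e := div_le_self he0 (by linarith)
          rw [e1]; linarith
        calc L (j + 1) ≤ C / (C + 1) * L j + e / (C + 1) := h5
          _ ≤ C / (C + 1) * ((C / (C + 1)) ^ (I.filter (fun i => i < j)).card * L (k + 1)
                + e * (C + 1)) + e / (C + 1) := by linarith
          _ = (C / (C + 1)) ^ (I.filter (fun i => i < j)).card * (C / (C + 1)) * L (k + 1)
                + (C / (C + 1) * (e * (C + 1)) + e / (C + 1)) := by ring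
          _ ≤ _ := by linarith
      · have hfil : I.filter (fun i => i < j + 1) = I.filter (fun i => i < j) := by
          ext i
          simp only [Finset.mem_filter]
          constructor
          · rintro ⟨h1, h2⟩
            refine ⟨h1, ?_⟩
            rcases Nat.lt_succ_iff_lt_or_eq.1 h2 with h | h
            · exact h
            · exact absurd (h ▸ h1) hjI
          · rintro ⟨h1, h2⟩; exact ⟨h1, by omega⟩
        rw [hfil]
        have h3 := hmono j (by omega)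
        have h4 := hα0 j (by omega)
        linarith
  have hfull := key k' (by omega) le_rfl
  have hfilI : I.filter (fun i => i < k') = I := by
    rw [Finset.filter_eq_self]
    exact fun i hi => (hI i hi).2
  rw [hfilI] at hfull
  have h1 := hcmpL k (Or.inl rfl)
  have h2 := hcross k' (by omega) (Or.inl rfl)
  have h3 := hmono k' (by omega)
  have h4 : 0 ≤ L (k' + 1) := by
    have := hP.mono_l hN (hα1 (k' + 1) (by omega)).1 (hαβ (k' + 1) (by omega))
      (hβ1 (k' + 1) (by omega)).2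
    simp only [hL]; linarith
  have h5 := mul_le_mul_of_nonneg_left h1 (pow_nonneg hlam0 I.card)
  linarith

/-- The step lemma. -/
theorem step_lemma (hN : PMet N) (hN' : PMet N') (hP : Geo N e T P ℓ) (he0 : 0 ≤ e) {σ : ℝ}
    (hσ : σ ∈ Icc 0 T) (hz : P σ = z) (hkk : k < k') (hr : ∀ i, 0 < r i)
    (hrd : ∀ i, r (i + 1) = r i / 2) (h0 : r k < ‖P 0 - z‖) (hT : r k ≤ ‖P T - z‖) (hρ : 0 < ρ)
    (hδ : 0 < δ) (hC : 1 ≤ C) (ht : ∀ i, k ≤ i → i < k' → 0 < t i)
    (ha : ∀ i, k ≤ i → i < k' → ∀ x y, r (i + 1) ≤ ‖x - z‖ → ‖x - z‖ ≤ r i →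
      r i / 8 ≤ ‖y - x‖ → t i ≤ N x y)
    (hb : ∀ i, k ≤ i → i < k' → ∀ x y, r (i + 1) ≤ ‖x - z‖ → ‖x - z‖ ≤ r i → N x y < t i →
      N' x y ≤ ρ * ((1 + δ) * N x y + δ * t i / 2))
    (htA : t k ≤ A k) (I : Finset ℕ) (hI : ∀ i ∈ I, k < i ∧ i < k')
    (hA : ∀ i, (i = k ∨ i = k' ∨ i ∈ I) → ∀ x y, ‖x - z‖ = r i → ‖y - z‖ = r (i + 1) →
      A i ≤ N x y)
    (hcmp : ∀ i, (i = k ∨ i ∈ I) → ∀ x y, ‖x - z‖ = r (i + 1) → ‖y - z‖ = r (i + 1) →
      N x y ≤ C * A i)
    (hcmp' : ∀ x y, ‖x - z‖ = r k' → ‖y - z‖ = r k' → N' x y ≤ ρ * C * A k')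
    (hsmall : (C / (C + 1)) ^ I.card * C ^ 2 ≤ δ / 2) (he : e * C * (C + 2) ≤ δ * A k / 2) :
    ∃ τ ∈ Icc σ T, ‖P τ - z‖ = r k ∧ (∀ s ∈ Icc σ τ, ‖P s - z‖ ≤ r k) ∧ A k ≤ ℓ τ - ℓ σ ∧
      N' (P 0) (P τ) ≤ N' (P 0) z + ρ * (1 + 4 * δ) * (ℓ τ - ℓ σ) := by
  have hanti : ∀ i j, i < j → r j < r i := by
    intro i j hij
    induction j, (Nat.succ_le_of_lt hij) using Nat.le_induction with
    | base => rw [hrd]; linarith [hr i]
    | succ m hm ih => have := ih (by omega); rw [hrd]; linarith [hr m]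
  have hcP := hP.cP
  have hcPσ : ContinuousOn P (Icc σ T) := hcP.mono (Icc_subset_Icc_left hσ.1)
  have hzz : ‖P σ - z‖ = 0 := by rw [hz, sub_self, norm_zero]
  have hdec := decay hN hP he0 hσ hz hkk hr hrd h0 hT hC I hI
    (fun i hi => hA i (Or.inr hi)) hcmp
  obtain ⟨τ, hτ, hτ1, hτ2⟩ := exists_exit hσ.2 hcPσ (R := r k) (z := z)
    (by rw [hzz]; exact hr k) hT
  have hτT : τ ≤ T := hτ.2
  have hτ0 : 0 ≤ τ := le_trans hσ.1 hτ.1
  have hcPτ : ContinuousOn P (Icc σ τ) := hcP.mono (Icc_subset_Icc hσ.1 hτ.2)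
  obtain ⟨σ', hσ', hσ'1, hσ'2⟩ := exists_last hτ.1 hcPτ (R := r k') (z := z)
    (by rw [hzz]; exact (hr k').le) (by rw [hτ1]; exact hanti k k' hkk)
  have hAk : A k ≤ ℓ τ - ℓ σ := by
    obtain ⟨s, hs, hsR⟩ := exists_radius (R := r (k + 1)) hτ.1 hcPτ z (by
      rw [hzz, hτ1, uIcc_of_le (hr k).le]
      exact ⟨(hr _).le, (hanti k (k + 1) (by omega)).le⟩)
    have h1 := hA k (Or.inl rfl) (P τ) (P s) hτ1 hsR
    have h2 := hP.le s τ (le_trans hσ.1 hs.1) hs.2 hτT
    have h3 := hP.mono_l hN hσ.1 hs.1 (le_trans hs.2 hτT)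
    rw [hN.symm] at h1
    linarith
  have htk := ht k le_rfl hkk
  have hAk0 : 0 < A k := lt_of_lt_of_le htk htA
  refine ⟨τ, hτ, hτ1, hτ2, hAk, ?_⟩
  -- the junction
  obtain ⟨u, hu1, hu2⟩ := hN'.cross (P 0) z (r k') (ρ * δ * A k / 2) (hr k').le
    (le_trans (hanti k k' hkk).le h0.le) (by positivity)
  have h1 := hcmp' u (P σ') hu1 hσ'1
  have h2 := pieces hN' hP.toCrv hN (le_trans hσ.1 hσ'.1) hσ'.2 hτT hkk hr hrd hρ hδ ht ha hb
    (fun s hs => ⟨by
      rcases eq_or_lt_of_le hs.1 with h | h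
      · rw [← h, hσ'1]
      · exact (hσ'2 s h hs.2).le, hτ2 s ⟨le_trans hσ'.1 hs.1, hs.2⟩⟩) hτ1
  have h3 := hN'.tri (P 0) u (P τ)
  have h4 := hN'.tri u (P σ') (P τ)
  have hlσ : ℓ σ ≤ ℓ σ' := hP.mono_l hN hσ.1 hσ'.1 (le_trans hσ'.2 hτT)
  -- the junction costs at most `ρ δ A k`
  have hC0 : 0 < C := by linarith
  have hlam0 : 0 ≤ (C / (C + 1)) ^ I.card := by positivity
  have hlam1 : (C / (C + 1)) ^ I.card ≤ 1 :=
    pow_le_one₀ (by positivity) (by rw [div_le_one (by linarith)]; linarith)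
  have h5 : C * A k' ≤ δ * A k := by
    have e1 : C * A k' ≤ C * ((C / (C + 1)) ^ I.card * (C * A k + e) + e * (C + 1)) :=
      mul_le_mul_of_nonneg_left hdec hC0.le
    have e2 : C * ((C / (C + 1)) ^ I.card * (C * A k + e) + e * (C + 1)) =
        (C / (C + 1)) ^ I.card * C ^ 2 * A k + (C / (C + 1)) ^ I.card * (C * e) +
          e * C * (C + 1) := by ring
    have e3 : (C / (C + 1)) ^ I.card * C ^ 2 * A k ≤ δ / 2 * A k :=
      mul_le_mul_of_nonneg_right hsmall hAk0.le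
    have e4 : (C / (C + 1)) ^ I.card * (C * e) ≤ 1 * (C * e) :=
      mul_le_mul_of_nonneg_right hlam1 (by positivity)
    nlinarith
  have h6 : ρ * C * A k' ≤ ρ * (δ * A k) := by
    rw [mul_assoc]; exact mul_le_mul_of_nonneg_left h5 hρ.le
  have h7 : ρ * δ * t k / 2 ≤ ρ * δ * A k / 2 := by
    have : ρ * δ * t k ≤ ρ * δ * A k := mul_le_mul_of_nonneg_left htA (by positivity)
    linarith
  have h8 : ρ * (1 + 2 * δ) * (ℓ τ - ℓ σ') ≤ ρ * (1 + 2 * δ) * (ℓ τ - ℓ σ) :=
    mul_le_mul_of_nonneg_left (by linarith) (by positivity)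
  have h9 : ρ * δ * A k ≤ ρ * δ * (ℓ τ - ℓ σ) :=
    mul_le_mul_of_nonneg_left hAk (by positivity)
  nlinarith

end

end Pool.Agent.Work.MP_45d062_pr
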